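import Pool.Agent.TH86.IL.Defs

set_option autoImplicit false

namespace Pool.Agent.TH86.IL

private theorem ar_step (k : ℕ) : ∀ B : ℕ, ∃ K : ℕ, ∀ x y : ℕ, K * (y + 1) ≤ 2 ^ (x / 4) →
    B * (EE k y + 1) ≤ TT (k + 1) x := by
  induction k with
  | zero =>
    intro B
    refine ⟨B, fun x y h => ?_⟩
    simpa [EE, TT] using h
  | succ k ih =>
    intro B
    obtain ⟨K, hK⟩ := ih (4 * (B + 2))
    refine ⟨K, fun x y h => ?_⟩
    have h1 := hK x y h
    set e := EE k y with he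
    have h2 : (B + 2) * (e + 1) ≤ TT (k + 1) x / 4 := by
      rw [Nat.le_div_iff_mul_le (by norm_num)]
      calc (B + 2) * (e + 1) * 4 = 4 * (B + 2) * (e + 1) := by ring
        _ ≤ _ := h1
    have h3 : TT (k + 1 + 1) x = 2 ^ (TT (k + 1) x / 4) := rfl
    rw [h3]
    have h4 : EE (k + 1) y = e * 2 ^ e := rfl
    rw [h4]
    have hB : B ≤ 2 ^ B := Nat.lt_two_pow_self.le
    have he2 : e ≤ 2 ^ e := Nat.lt_two_pow_self.le
    have h5 : e * 2 ^ e + 1 ≤ 2 ^ (2 * e + 2) := by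
      have q : 2 ^ (2 * e + 2) = 2 ^ e * 2 ^ e * 4 := by
        rw [pow_add, two_mul, pow_add]; norm_num
      rw [q]
      have p : 1 ≤ 2 ^ e := Nat.one_le_two_pow
      nlinarith [Nat.mul_le_mul he2 (le_refl (2 ^ e)), Nat.mul_le_mul p p]
    calc B * (e * 2 ^ e + 1) ≤ 2 ^ B * 2 ^ (2 * e + 2) := Nat.mul_le_mul hB h5
      _ = 2 ^ (B + (2 * e + 2)) := (pow_add 2 B (2 * e + 2)).symm
      _ ≤ 2 ^ ((B + 2) * (e + 1)) := by
          apply Nat.pow_le_pow_right (by norm_num)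
          nlinarith [Nat.zero_le (B * e)]
      _ ≤ 2 ^ (TT (k + 1) x / 4) := Nat.pow_le_pow_right (by norm_num) h2

private theorem ar_pow (C1 C2 : ℕ) : ∃ m : ℕ, 1 ≤ m ∧ C1 + C2 * m ≤ 2 ^ m := by
  set n := C1 + 2 * C2 + 1 with hn
  refine ⟨2 * n, by omega, ?_⟩
  have h : n ≤ 2 ^ n := Nat.lt_two_pow_self.le
  have q : 2 ^ (2 * n) = 2 ^ n * 2 ^ n := by rw [two_mul, pow_add]
  rw [q]
  have h2 : n * n ≤ 2 ^ n * 2 ^ n := Nat.mul_le_mul h h
  have h3 : C1 + C2 * (2 * n) ≤ n * n := by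
    have : 1 ≤ n := by omega
    nlinarith [Nat.mul_le_mul_left C1 this]
  omega

private theorem ar_base (V : ℕ → ℕ) (hV : ∀ r, r + 1 ≤ V r) (hmono : Monotone V) (A : ℕ)
    (hA : ∀ r, V (r + 1) ≤ V r * A) (a b K : ℕ) :
    ∃ r, 1 ≤ r ∧ K * (V (a * r + b) + 1) ≤ 2 ^ ((V r / 2) / 4) := by
  by_contra hcon
  push Not at hcon
  have hVA : ∀ n, V n ≤ V 0 * A ^ n := by
    intro n
    induction n with
    | zero => simp
    | succ n ih =>
      calc V (n + 1) ≤ V n * A := hA n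
        _ ≤ V 0 * A ^ n * A := Nat.mul_le_mul_right A ih
        _ = V 0 * A ^ (n + 1) := by rw [pow_succ]; ring
  have hA2 : A ≤ 2 ^ A := Nat.lt_two_pow_self.le
  have hK2 : K ≤ 2 ^ K := Nat.lt_two_pow_self.le
  have hV2 : V 0 ≤ 2 ^ V 0 := Nat.lt_two_pow_self.le
  have hb : ∀ n, K * (V n + 1) ≤ 2 ^ (K + (V 0 + A * n + 1)) := by
    intro n
    rw [pow_add]
    refine Nat.mul_le_mul hK2 ?_
    have h1 : V n ≤ 2 ^ (V 0 + A * n) := by
      rw [pow_add, pow_mul]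
      exact (hVA n).trans (Nat.mul_le_mul hV2 (Nat.pow_le_pow_left hA2 n))
    have h2 : 1 ≤ 2 ^ (V 0 + A * n) := Nat.one_le_two_pow
    have h3 : 2 ^ (V 0 + A * n + 1) = 2 ^ (V 0 + A * n) * 2 := pow_succ _ _
    omega
  -- constants
  obtain ⟨m, hm1, hm⟩ := ar_pow
    (K * (8 * (K + V 0 + 1 + A * (a * (b + 1) + b)) + 9)) (K * (8 * (A * (a * (a * 8)))))
  have h8 : ∀ r, (V r / 2) / 4 = V r / 8 := by
    intro r; rw [Nat.div_div_eq_div_mul]
  have c1 := hcon (8 * m) (by omega)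
  rw [h8] at c1
  set r' := a * (8 * m) + b + 1 with hr'
  have c2 := hcon r' (by omega)
  rw [h8] at c2
  have c3 := lt_of_lt_of_le c2 (hb (a * r' + b))
  have c4 : V r' / 8 < K + (V 0 + A * (a * r' + b) + 1) := (Nat.pow_lt_pow_iff_right (by norm_num)).1 c3
  have c5 : V r' < 8 * (K + (V 0 + A * (a * r' + b) + 1)) := by
    have := Nat.lt_mul_div_succ (V r') (show 0 < 8 by norm_num)
    omega
  have c6 : V (a * (8 * m) + b) ≤ V r' := hmono (by omega)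
  have c7 : 2 ^ m ≤ 2 ^ (V (8 * m) / 8) := by
    apply Nat.pow_le_pow_right (by norm_num)
    rw [Nat.le_div_iff_mul_le (by norm_num)]
    have := hV (8 * m)
    omega
  have c8 : 2 ^ m < K * (V r' + 1) :=
    lt_of_le_of_lt c7 (lt_of_lt_of_le c1 (Nat.mul_le_mul_left K (by omega)))
  have c9 : K * (V r' + 1) ≤ K * (8 * (K + (V 0 + A * (a * r' + b) + 1)) + 1) :=
    Nat.mul_le_mul_left K (by omega)
  have c10 : K * (8 * (K + (V 0 + A * (a * r' + b) + 1)) + 1)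
      ≤ K * (8 * (K + V 0 + 1 + A * (a * (b + 1) + b)) + 9)
        + K * (8 * (A * (a * (a * 8)))) * m := by
    have e : K * (8 * (K + V 0 + 1 + A * (a * (b + 1) + b)) + 9)
        + K * (8 * (A * (a * (a * 8)))) * m
        = K * (8 * (K + (V 0 + A * (a * r' + b) + 1)) + 9) := by
      rw [hr']; ring
    rw [e]
    exact Nat.mul_le_mul_left K (by omega)
  omega

/-- The arithmetic of the tree-like case. -/
theorem arith (V : ℕ → ℕ) (hV : ∀ r, r + 1 ≤ V r) (hmono : Monotone V) (A : ℕ)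
    (hA : ∀ r, V (r + 1) ≤ V r * A) (a b B k : ℕ) :
    ∃ r, 1 ≤ r ∧ B * EE k (V (a * r + b)) ≤ TT (k + 1) (V r / 2) := by
  obtain ⟨K, hK⟩ := ar_step k B
  obtain ⟨r, hr, h⟩ := ar_base V hV hmono A hA a b K
  refine ⟨r, hr, ?_⟩
  have := hK (V r / 2) (V (a * r + b)) h
  exact le_trans (Nat.mul_le_mul_left B (Nat.le_succ _)) this

end Pool.Agent.TH86.IL
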