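import Mathlib

set_option autoImplicit false

namespace Pool.Agent.TH86.IL

universe u

private theorem aux_log1 (t : ℝ) (h0 : 0 ≤ t) (h1 : t ≤ 1) : t * Real.log 2 ≤ Real.log (1 + t) := by
  have h := rpow_one_add_le_one_add_mul_self (s := (1 : ℝ)) (by norm_num) (p := t) h0 h1
  have h2 : ((1 : ℝ) + 1) ^ t = (2 : ℝ) ^ t := by norm_num
  rw [h2, mul_one] at h
  have h3 : Real.log ((2 : ℝ) ^ t) ≤ Real.log (1 + t) :=
    Real.log_le_log (Real.rpow_pos_of_pos (by norm_num) t) h
  rwa [Real.log_rpow (by norm_num)] at h3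

private theorem aux_log2 (a b : ℝ) (hb : 0 < b) (hab : b ≤ a) :
    a * Real.log a + b * Real.log b + 2 * b * Real.log 2 ≤ (a + b) * Real.log (a + b) := by
  have ha : 0 < a := lt_of_lt_of_le hb hab
  have e1 : Real.log (a + b) = Real.log a + Real.log (1 + b / a) := by
    rw [← Real.log_mul ha.ne' (by positivity)]
    congr 1
    field_simp
  have e2 : Real.log (a + b) = Real.log b + Real.log (1 + a / b) := by
    rw [← Real.log_mul hb.ne' (by positivity)]
    congr 1
    field_simp
    ring
  have h1 : (b / a) * Real.log 2 ≤ Real.log (1 + b / a) :=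
    aux_log1 _ (by positivity) ((div_le_one ha).2 hab)
  have h2 : Real.log 2 ≤ Real.log (1 + a / b) := by
    apply Real.log_le_log (by norm_num)
    have : 1 ≤ a / b := (one_le_div hb).2 hab
    linarith
  have h3 : b * Real.log 2 ≤ a * Real.log (1 + b / a) := by
    have := mul_le_mul_of_nonneg_left h1 ha.le
    have e : a * (b / a * Real.log 2) = b * Real.log 2 := by field_simp
    linarith
  have h4 : b * Real.log 2 ≤ b * Real.log (1 + a / b) := mul_le_mul_of_nonneg_left h2 hb.le
  calc a * Real.log a + b * Real.log b + 2 * b * Real.log 2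
      ≤ a * (Real.log a + Real.log (1 + b / a)) + b * (Real.log b + Real.log (1 + a / b)) := by
        nlinarith
    _ = (a + b) * Real.log (a + b) := by rw [← e1, ← e2]; ring

private theorem aux_log3 (a b : ℕ) :
    (a : ℝ) * Real.log a + b * Real.log b + 2 * (min a b : ℕ) * Real.log 2
      ≤ ((a + b : ℕ) : ℝ) * Real.log ((a + b : ℕ) : ℝ) := by
  push_cast
  rcases Nat.eq_zero_or_pos b with hb | hb
  · subst hb; simp
  rcases Nat.eq_zero_or_pos a with ha | ha
  · subst ha; simp
  have hbR : (0 : ℝ) < b := by exact_mod_cast hb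
  have haR : (0 : ℝ) < a := by exact_mod_cast ha
  rcases le_total b a with h | h
  · have hR : (b : ℝ) ≤ a := by exact_mod_cast h
    rw [min_eq_right hR]
    exact aux_log2 a b hbR hR
  · have hR : (a : ℝ) ≤ b := by exact_mod_cast h
    rw [min_eq_left hR]
    have := aux_log2 b a haR hR
    rw [add_comm (a : ℝ) (b : ℝ)]
    linarith

private theorem aux_deg {α : Type u} [DecidableEq α] (F : Finset α) :
    ∀ 𝒜 : Finset (Finset α),
      ((∑ s ∈ 𝒜, (F.filter (fun x => symmDiff s {x} ∈ 𝒜)).card : ℕ) : ℝ) * Real.log 2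
        ≤ (𝒜.card : ℝ) * Real.log (𝒜.card : ℝ) := by
  induction F using Finset.induction_on with
  | empty =>
    intro 𝒜
    simp
    rcases Nat.eq_zero_or_pos 𝒜.card with h | h
    · rw [h]; simp
    · have : (1 : ℝ) ≤ 𝒜.card := by exact_mod_cast h
      exact mul_nonneg (by positivity) (Real.log_nonneg this)
  | insert x F hx ih =>
    intro 𝒜
    set A0 := 𝒜.filter (fun s => x ∉ s) with hA0
    set A1 := 𝒜.filter (fun s => x ∈ s) with hA1
    have hmemx : ∀ s : Finset α, x ∈ symmDiff s {x} ↔ x ∉ s := by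
      intro s
      simp [Finset.mem_symmDiff]
    have hmemy : ∀ (s : Finset α) (y : α), y ≠ x → (x ∈ symmDiff s {y} ↔ x ∈ s) := by
      intro s y hy
      simp [Finset.mem_symmDiff, Ne.symm hy]
    have hinv : ∀ s : Finset α, symmDiff (symmDiff s {x}) {x} = s := by
      intro s
      rw [symmDiff_assoc, symmDiff_self]
      simp
    have hcard : A0.card + A1.card = 𝒜.card := by
      rw [hA0, hA1, add_comm]
      exact Finset.card_filter_add_card_filter_not (fun s => x ∈ s)
    have hsum : ∀ f : Finset α → ℕ, ∑ s ∈ 𝒜, f s = ∑ s ∈ A0, f s + ∑ s ∈ A1, f s := by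
      intro f
      rw [hA0, hA1, add_comm]
      exact (Finset.sum_filter_add_sum_filter_not 𝒜 (fun s => x ∈ s) f).symm
    have hsplit : ∀ s ∈ 𝒜, ((insert x F).filter (fun y => symmDiff s {y} ∈ 𝒜)).card
        = (F.filter (fun y => symmDiff s {y} ∈ 𝒜)).card + (if symmDiff s {x} ∈ 𝒜 then 1 else 0) := by
      intro s _
      rw [Finset.filter_insert]
      split_ifs with h
      · rw [Finset.card_insert_of_notMem]
        simp [hx]
      · simp
    rw [Finset.sum_congr rfl hsplit, Finset.sum_add_distrib]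
    have hF0 : ∑ s ∈ A0, (F.filter (fun y => symmDiff s {y} ∈ 𝒜)).card
        = ∑ s ∈ A0, (F.filter (fun y => symmDiff s {y} ∈ A0)).card := by
      apply Finset.sum_congr rfl
      intro s hs
      congr 1
      apply Finset.filter_congr
      intro y hy
      have hyx : y ≠ x := fun h => hx (h ▸ hy)
      have hs' : x ∉ s := (Finset.mem_filter.1 hs).2
      simp only [hA0, Finset.mem_filter]
      constructor
      · intro h
        exact ⟨h, by rw [hmemy s y hyx]; exact hs'⟩
      · intro h; exact h.1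
    have hF1 : ∑ s ∈ A1, (F.filter (fun y => symmDiff s {y} ∈ 𝒜)).card
        = ∑ s ∈ A1, (F.filter (fun y => symmDiff s {y} ∈ A1)).card := by
      apply Finset.sum_congr rfl
      intro s hs
      congr 1
      apply Finset.filter_congr
      intro y hy
      have hyx : y ≠ x := fun h => hx (h ▸ hy)
      have hs' : x ∈ s := (Finset.mem_filter.1 hs).2
      simp only [hA1, Finset.mem_filter]
      constructor
      · intro h
        exact ⟨h, by rw [hmemy s y hyx]; exact hs'⟩
      · intro h; exact h.1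
    rw [hsum (fun s => (F.filter (fun y => symmDiff s {y} ∈ 𝒜)).card), hF0, hF1]
    have hx2 : ∑ s ∈ 𝒜, (if symmDiff s {x} ∈ 𝒜 then 1 else 0)
        ≤ 2 * min A0.card A1.card := by
      rw [hsum]
      have c0 : ∑ s ∈ A0, (if symmDiff s {x} ∈ 𝒜 then 1 else 0)
          = (A0.filter (fun s => symmDiff s {x} ∈ 𝒜)).card := by
        rw [Finset.card_filter]
      have c1 : ∑ s ∈ A1, (if symmDiff s {x} ∈ 𝒜 then 1 else 0)
          = (A1.filter (fun s => symmDiff s {x} ∈ 𝒜)).card := by
        rw [Finset.card_filter]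
      have hb : (A0.filter (fun s => symmDiff s {x} ∈ 𝒜)).card
          = (A1.filter (fun s => symmDiff s {x} ∈ 𝒜)).card := by
        apply Finset.card_bij (fun s _ => symmDiff s {x})
        · intro s hs
          simp only [hA0, hA1, Finset.mem_filter] at hs ⊢
          refine ⟨⟨hs.2, ?_⟩, ?_⟩
          · rw [hmemx]; exact hs.1.2
          · rw [hinv]; exact hs.1.1
        · intro s _ t _ hst
          have := congrArg (fun u => symmDiff u {x}) hst
          simpa [hinv] using this
        · intro s hs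
          simp only [hA0, hA1, Finset.mem_filter] at hs ⊢
          refine ⟨symmDiff s {x}, ⟨⟨hs.2, ?_⟩, ?_⟩, hinv s⟩
          · rw [hmemx]; exact not_not.2 hs.1.2
          · rw [hinv]; exact hs.1.1
      have l0 : (A0.filter (fun s => symmDiff s {x} ∈ 𝒜)).card ≤ A0.card :=
        Finset.card_filter_le _ _
      have l1 : (A1.filter (fun s => symmDiff s {x} ∈ 𝒜)).card ≤ A1.card :=
        Finset.card_filter_le _ _
      rw [c0, c1, ← hb]
      rw [← hb] at l1
      have := le_min l0 l1
      omega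
    have i0 := ih A0
    have i1 := ih A1
    have i3 := aux_log3 A0.card A1.card
    rw [hcard] at i3
    have hlog2 : 0 < Real.log 2 := Real.log_pos (by norm_num)
    have hx3 : ((∑ s ∈ 𝒜, (if symmDiff s {x} ∈ 𝒜 then 1 else 0) : ℕ) : ℝ) * Real.log 2
        ≤ 2 * ((min A0.card A1.card : ℕ) : ℝ) * Real.log 2 := by
      apply mul_le_mul_of_nonneg_right _ hlog2.le
      exact_mod_cast hx2
    set P0 := ∑ s ∈ A0, (F.filter (fun y => symmDiff s {y} ∈ A0)).card
    set P1 := ∑ s ∈ A1, (F.filter (fun y => symmDiff s {y} ∈ A1)).card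
    set P2 := ∑ s ∈ 𝒜, (if symmDiff s {x} ∈ 𝒜 then 1 else 0)
    have e : ((P0 + P1 + P2 : ℕ) : ℝ) * Real.log 2
        = (P0 : ℝ) * Real.log 2 + (P1 : ℝ) * Real.log 2 + (P2 : ℝ) * Real.log 2 := by
      push_cast; ring
    rw [e]
    linarith

/-- Edge isoperimetry in the cube: a family of at most `2 ^ k` finite sets has average degree at
most `k`. -/
theorem cube_iso {α : Type u} [DecidableEq α] (F : Finset α) (𝒜 : Finset (Finset α)) (k : ℕ)
    (h𝒜 : 𝒜.card ≤ 2 ^ k) :
    ∑ s ∈ 𝒜, (F.filter (fun x => symmDiff s {x} ∈ 𝒜)).card ≤ k * 𝒜.card := by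
  have h := aux_deg F 𝒜
  have hlog2 : 0 < Real.log 2 := Real.log_pos (by norm_num)
  rcases Nat.eq_zero_or_pos 𝒜.card with h0 | h0
  · rw [Finset.card_eq_zero] at h0
    subst h0; simp
  have hpos : (0 : ℝ) < 𝒜.card := by exact_mod_cast h0
  have h1 : Real.log (𝒜.card : ℝ) ≤ k * Real.log 2 := by
    rw [← Real.log_pow]
    apply Real.log_le_log hpos
    exact_mod_cast h𝒜
  have h2 : ((∑ s ∈ 𝒜, (F.filter (fun x => symmDiff s {x} ∈ 𝒜)).card : ℕ) : ℝ) * Real.log 2
      ≤ ((k * 𝒜.card : ℕ) : ℝ) * Real.log 2 := by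
    refine h.trans ?_
    push_cast
    calc (𝒜.card : ℝ) * Real.log (𝒜.card : ℝ) ≤ 𝒜.card * (k * Real.log 2) :=
          mul_le_mul_of_nonneg_left h1 hpos.le
      _ = k * 𝒜.card * Real.log 2 := by ring
  have h3 := le_of_mul_le_mul_right h2 hlog2
  exact_mod_cast h3

end Pool.Agent.TH86.IL
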