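import Pool.Agent.TH86.IL.Defs

set_option autoImplicit false

namespace Pool.Agent.TH86.IL

universe u

open scoped Classical in
/-- A certificate obstructs covering families. -/
theorem PF_QF {X : Type u} (E : GM X) {n L N : ℕ} {κ : ℝ} (h : PF E n L N) (h' : QF E κ N) :
    (n : ℝ) ≤ L * κ := by
  obtain ⟨ι, S, hS, hc, hsep⟩ := h
  obtain ⟨F, w, hF, hw0, hw1, hwt, hiso⟩ := h'
  set I : Finset ι := F.biUnion (fun x => (hc x).1.toFinset) with hI
  have hmemI : ∀ x ∈ F, ∀ i, x ∈ S i → i ∈ I := by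
    intro x hx i hi
    rw [hI, Finset.mem_biUnion]
    exact ⟨x, hx, by simpa using hi⟩
  have hn : ∀ x ∈ F, (I.filter (fun i => x ∈ S i)).card = n := by
    intro x hx
    rw [← (hc x).2, Set.ncard_eq_toFinset_card _ (hc x).1]
    congr 1
    ext i
    simp only [Finset.mem_filter, Set.Finite.mem_toFinset, Set.mem_setOf_eq]
    exact ⟨fun hh => hh.2, fun hh => ⟨hmemI x hx i hh, hh⟩⟩
  have hL : ∀ x y, E.d x y ≤ 1 → (I.filter (fun i => x ∈ S i ∧ y ∉ S i)).card ≤ L := by
    intro x y hxy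
    refine le_trans ?_ (hsep x y hxy)
    rw [← Set.ncard_coe_finset]
    apply Set.ncard_le_ncard
    · intro i hi
      have := Finset.mem_coe.1 hi
      exact (Finset.mem_filter.1 this).2
    · exact (hc x).1.subset (fun i hi => hi.1)
  -- n |F| = sum of slices
  have h1 : (n : ℝ) * F.card = ∑ i ∈ I, ((F.filter (fun x => x ∈ S i)).card : ℝ) := by
    have e : ∑ x ∈ F, (I.filter (fun i => x ∈ S i)).card = ∑ i ∈ I, (F.filter (fun x => x ∈ S i)).card := by
      simp only [Finset.card_filter]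
      exact Finset.sum_comm
    have e2 : ∑ x ∈ F, (I.filter (fun i => x ∈ S i)).card = n * F.card := by
      rw [Finset.sum_congr rfl hn, Finset.sum_const, smul_eq_mul, mul_comm]
    have e3 : ((n * F.card : ℕ) : ℝ) = ((∑ i ∈ I, (F.filter (fun x => x ∈ S i)).card : ℕ) : ℝ) := by
      rw [← e2, e]
    push_cast at e3
    exact e3
  have h2 : ∀ i ∈ I, ((F.filter (fun x => x ∈ S i)).card : ℝ)
      ≤ ∑ x ∈ F, ∑ y ∈ F, if (x ∈ S i ∧ y ∉ S i) then w x y else 0 := by
    intro i _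
    have hc1 : (F.filter (fun x => x ∈ S i)).card ≤ N := by
      refine le_trans ?_ (hS i).2
      rw [← Set.ncard_coe_finset]
      apply Set.ncard_le_ncard _ (hS i).1
      intro x hx
      exact (Finset.mem_filter.1 (Finset.mem_coe.1 hx)).2
    refine le_trans (hiso _ (Finset.filter_subset _ _) hc1) (le_of_eq ?_)
    rw [Finset.sum_filter]
    apply Finset.sum_congr rfl
    intro x hx
    split_ifs with hxi
    · rw [Finset.sum_filter]
      apply Finset.sum_congr rfl
      intro y hy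
      simp [hxi, hy]
    · simp [hxi]
  have h3 : ∑ i ∈ I, ∑ x ∈ F, ∑ y ∈ F, (if (x ∈ S i ∧ y ∉ S i) then w x y else 0)
      = ∑ x ∈ F, ∑ y ∈ F, ((I.filter (fun i => x ∈ S i ∧ y ∉ S i)).card : ℝ) * w x y := by
    rw [Finset.sum_comm]
    apply Finset.sum_congr rfl
    intro x _
    rw [Finset.sum_comm]
    apply Finset.sum_congr rfl
    intro y _
    rw [← Finset.sum_filter, Finset.sum_const, nsmul_eq_mul]
  have h4 : ∑ x ∈ F, ∑ y ∈ F, ((I.filter (fun i => x ∈ S i ∧ y ∉ S i)).card : ℝ) * w x y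
      ≤ ∑ x ∈ F, ∑ y ∈ F, (L : ℝ) * w x y := by
    apply Finset.sum_le_sum
    intro x _
    apply Finset.sum_le_sum
    intro y _
    by_cases hxy : w x y = 0
    · simp [hxy]
    · apply mul_le_mul_of_nonneg_right _ (hw0 x y)
      exact_mod_cast hL x y (hw1 x y hxy)
  have h5 : ∑ x ∈ F, ∑ y ∈ F, (L : ℝ) * w x y ≤ L * (κ * F.card) := by
    simp only [← Finset.mul_sum]
    exact mul_le_mul_of_nonneg_left hwt (Nat.cast_nonneg L)
  have h6 : (n : ℝ) * F.card ≤ L * κ * F.card := by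
    calc (n : ℝ) * F.card = ∑ i ∈ I, ((F.filter (fun x => x ∈ S i)).card : ℝ) := h1
      _ ≤ ∑ i ∈ I, ∑ x ∈ F, ∑ y ∈ F, (if (x ∈ S i ∧ y ∉ S i) then w x y else 0) :=
          Finset.sum_le_sum h2
      _ ≤ L * (κ * F.card) := by rw [h3]; exact h4.trans h5
      _ = L * κ * F.card := by ring
  have hpos : (0 : ℝ) < F.card := by exact_mod_cast hF.card_pos
  exact le_of_mul_le_mul_right h6 hpos

end Pool.Agent.TH86.IL
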